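import Mathlib
import Pool.Agent.Helper940.SelfSim
import Pool.Agent.Helper940.SelfSimBasic
import Pool.Agent.Helper940.MixedCore
import Pool.Agent.Y381.Deg.Core
import Pool.Agent.Y381.Deg.Pairs

/-!
# Lower and upper degrees of growth of infinite self-similar Schreier graphs

The definitions `SelfSimilar`, `Contracting`, `Maps`, `growth` are in
`Pool/Agent/Helper940/SelfSim.lean`.
-/

set_option autoImplicit false

namespace Pool.Agent.Results.MP_e8676d_al.DegreePairs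

open Filter Topology Pool.Agent.Helper940.SelfSim

/-- `γ` is the growth function of the Schreier graph of a boundary point `ξ` with infinite orbit,
for a self-similar group `L` acting on the words over a `d`-letter alphabet `X`, `d ≥ 2`, with
finite generating set `S`. -/
def IsOrbitGrowth (γ : ℕ → ℕ) : Prop :=
  ∃ (d : ℕ) (X : Type) (L : Subgroup (Equiv.Perm (List X))) (S : Set (Equiv.Perm (List X)))
    (ξ : ℕ → X), 2 ≤ d ∧ Nat.card X = d ∧ SelfSimilar L ∧ S.Finite ∧ Subgroup.closure S = L ∧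
    {η : ℕ → X | ∃ g ∈ L, Maps g ξ η}.Infinite ∧ γ = growth S ξ

/-- The same with a contracting self-similar group `L`. -/
def IsContractingOrbitGrowth (γ : ℕ → ℕ) : Prop :=
  ∃ (d : ℕ) (X : Type) (L : Subgroup (Equiv.Perm (List X))) (S : Set (Equiv.Perm (List X)))
    (ξ : ℕ → X), 2 ≤ d ∧ Nat.card X = d ∧ SelfSimilar L ∧ Contracting L ∧ S.Finite ∧
    Subgroup.closure S = L ∧ {η : ℕ → X | ∃ g ∈ L, Maps g ξ η}.Infinite ∧ γ = growth S ξ

/-- The degrees of growth, as limits of `log γ(n) / log n`: the set `𝒟` of the problem. -/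
def degreeSet : Set ℝ :=
  {α | ∃ γ : ℕ → ℕ, IsOrbitGrowth γ ∧
    Tendsto (fun n : ℕ => Real.log (γ n) / Real.log n) atTop (𝓝 α)}

/-- The pairs `(α, β)` of real numbers for which some growth function `γ` in the class `C` has the
lower degree `liminf log γ(n) / log n = α` and the upper degree `limsup log γ(n) / log n = β`. -/
def degreePairs (C : (ℕ → ℕ) → Prop) : Set (ℝ × ℝ) :=
  {p | ∃ γ : ℕ → ℕ, C γ ∧
    liminf (fun n : ℕ => ((Real.log (γ n) / Real.log n : ℝ) : EReal)) atTop = (p.1 : EReal) ∧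
    limsup (fun n : ℕ => ((Real.log (γ n) / Real.log n : ℝ) : EReal)) atTop = (p.2 : EReal)}

theorem IsContractingOrbitGrowth.orbit {γ : ℕ → ℕ} (h : IsContractingOrbitGrowth γ) :
    IsOrbitGrowth γ := by
  obtain ⟨d, X, L, S, ξ, h1, h2, h3, -, h4, h5, h6, h7⟩ := h
  exact ⟨d, X, L, S, ξ, h1, h2, h3, h4, h5, h6, h7⟩

theorem isGrowth (k : ℕ) (ξ : ℕ → Pool.Agent.Helper940.MixedTree.Al k) :
    IsContractingOrbitGrowth (growth (Pool.Agent.Helper940.MixedTree.S k) ξ) := by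
  refine ⟨k + 4, Pool.Agent.Helper940.MixedTree.Al k, Pool.Agent.Helper940.MixedTree.G k,
    Pool.Agent.Helper940.MixedTree.S k, ξ, by omega, ?_,
    Pool.Agent.Helper940.MixedTree.selfSimilar_G, Pool.Agent.Helper940.MixedTree.contracting_G,
    Pool.Agent.Helper940.MixedTree.S_finite, rfl,
    Pool.Agent.Helper940.MixedTree.orbit_infinite ξ, rfl⟩
  rw [Nat.card_eq_fintype_card]
  simp
  omega

theorem one_le {γ : ℕ → ℕ} (h : IsOrbitGrowth γ) {n : ℕ} (hn : 2 ≤ n) :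
    (1 : ℝ) ≤ Real.log (γ n) / Real.log n := by
  obtain ⟨d, X, L, S, ξ, -, -, hL, hS, hSL, hinf, rfl⟩ := h
  subst hSL
  have hg := growth_ge_of_infinite hS hL ξ hinf n
  have hn' : (2 : ℝ) ≤ n := by exact_mod_cast hn
  have hlog : 0 < Real.log n := Real.log_pos (by linarith)
  rw [le_div_iff₀ hlog, one_mul]
  have hg' : ((n + 1 : ℕ) : ℝ) ≤ growth S ξ n := by exact_mod_cast hg
  push_cast at hg'
  exact Real.log_le_log (by linarith) (by linarith)

theorem pairs_sub (C : (ℕ → ℕ) → Prop) (hC : ∀ γ, C γ → IsOrbitGrowth γ) :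
    degreePairs C ⊆ {p | 1 ≤ p.1 ∧ p.1 ≤ p.2} := by
  rintro ⟨α, β⟩ ⟨γ, hγ, hα, hβ⟩
  simp only at hα hβ
  have h1 : (1 : EReal) ≤
      liminf (fun n : ℕ => ((Real.log (γ n) / Real.log n : ℝ) : EReal)) atTop := by
    have : ∀ᶠ n : ℕ in atTop, (1 : EReal) ≤ ((Real.log (γ n) / Real.log n : ℝ) : EReal) := by
      filter_upwards [eventually_ge_atTop 2] with n hn
      exact_mod_cast one_le (hC γ hγ) hn
    calc (1 : EReal) = liminf (fun _ : ℕ => (1 : EReal)) atTop := (liminf_const _).symm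
      _ ≤ _ := liminf_le_liminf this
  have h2 : liminf (fun n : ℕ => ((Real.log (γ n) / Real.log n : ℝ) : EReal)) atTop ≤
      limsup (fun n : ℕ => ((Real.log (γ n) / Real.log n : ℝ) : EReal)) atTop :=
    liminf_le_limsup
  rw [hα] at h1 h2
  rw [hβ] at h2
  exact ⟨by exact_mod_cast h1, by exact_mod_cast h2⟩

theorem sub_pairs (C : (ℕ → ℕ) → Prop) (hC : ∀ γ, IsContractingOrbitGrowth γ → C γ) :
    {p | 1 ≤ p.1 ∧ p.1 ≤ p.2} ⊆ degreePairs C := by
  rintro ⟨α, β⟩ ⟨h1, h2⟩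
  obtain ⟨k, ξ, h3, h4⟩ := Pool.Agent.Y381.Deg.exists_pair (α := α) (β := β) h1 h2
  exact ⟨_, hC _ (isGrowth k ξ), h3, h4⟩

/-- (1) The degrees of growth (limits) of the infinite Schreier graphs of boundary points for
finitely generated self-similar groups are all real numbers `α ≥ 1`. (2) The pairs (lower degree,
upper degree) are all `(α, β)` with `1 ≤ α ≤ β`, and they all occur for contracting groups.
(3) Every positive monotone function `f` with `2 f(m) ≤ f(2m) ≤ K f(m)` is the growth function of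
such a graph of a contracting group, up to multiplicative constants; (4) in particular `m ^ α`, for
every `α ≥ 1`. -/
theorem result : degreeSet = Set.Ici 1 ∧
    degreePairs IsOrbitGrowth = {p | 1 ≤ p.1 ∧ p.1 ≤ p.2} ∧
    degreePairs IsContractingOrbitGrowth = {p | 1 ≤ p.1 ∧ p.1 ≤ p.2} ∧
    (∀ (f : ℕ → ℝ) (K : ℝ), (∀ m, 1 ≤ m → 0 < f m) → (∀ m n, 1 ≤ m → m ≤ n → f m ≤ f n) →
      (∀ m, 1 ≤ m → 2 * f m ≤ f (2 * m) ∧ f (2 * m) ≤ K * f m) →
      ∃ (γ : ℕ → ℕ) (c C : ℝ), IsContractingOrbitGrowth γ ∧ 0 < c ∧ 0 < C ∧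
        ∀ m : ℕ, 1 ≤ m → c * f m ≤ γ m ∧ (γ m : ℝ) ≤ C * f m) ∧
    ∀ α : ℝ, 1 ≤ α → ∃ (γ : ℕ → ℕ) (c C : ℝ), IsContractingOrbitGrowth γ ∧ 0 < c ∧ 0 < C ∧
        ∀ m : ℕ, 1 ≤ m → c * (m : ℝ) ^ α ≤ γ m ∧ (γ m : ℝ) ≤ C * (m : ℝ) ^ α := by
  have hfun : ∀ (f : ℕ → ℝ) (K : ℝ), (∀ m, 1 ≤ m → 0 < f m) →
      (∀ m n, 1 ≤ m → m ≤ n → f m ≤ f n) →
      (∀ m, 1 ≤ m → 2 * f m ≤ f (2 * m) ∧ f (2 * m) ≤ K * f m) →
      ∃ (γ : ℕ → ℕ) (c C : ℝ), IsContractingOrbitGrowth γ ∧ 0 < c ∧ 0 < C ∧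
        ∀ m : ℕ, 1 ≤ m → c * f m ≤ γ m ∧ (γ m : ℝ) ≤ C * f m := by
    intro f K h1 h2 h3
    obtain ⟨k, ξ, c, C, h4, h5, h6⟩ := Pool.Agent.Y381.Deg.exists_growth_fun f K h1 h2 h3
    exact ⟨_, c, C, isGrowth k ξ, h4, h5, h6⟩
  refine ⟨?_, ?_, ?_, hfun, ?_⟩
  · apply Set.Subset.antisymm
    · rintro α ⟨γ, hγ, hlim⟩
      refine ge_of_tendsto hlim ?_
      filter_upwards [eventually_ge_atTop 2] with n hn
      exact one_le hγ hn
    · intro α hα
      obtain ⟨k, ξ, h⟩ := Pool.Agent.Helper940.MixedTree.core α hα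
      exact ⟨_, (isGrowth k ξ).orbit, h⟩
  · exact Set.Subset.antisymm (pairs_sub _ fun _ h => h) (sub_pairs _ fun _ h => h.orbit)
  · exact Set.Subset.antisymm (pairs_sub _ fun _ h => h.orbit) (sub_pairs _ fun _ h => h)
  · intro α hα
    refine hfun (fun m => (m : ℝ) ^ α) (2 ^ α) ?_ ?_ ?_
    · intro m hm
      have : (0 : ℝ) < m := by exact_mod_cast hm
      exact Real.rpow_pos_of_pos this α
    · intro m n hm hmn
      exact Real.rpow_le_rpow (by positivity) (by exact_mod_cast hmn) (by linarith)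
    · intro m hm
      have hm0 : (0 : ℝ) ≤ m := by positivity
      have e : (((2 * m : ℕ) : ℝ)) ^ α = 2 ^ α * (m : ℝ) ^ α := by
        push_cast
        rw [Real.mul_rpow (by norm_num) hm0]
      have h2 : (2 : ℝ) ≤ 2 ^ α := by
        calc (2 : ℝ) = 2 ^ (1 : ℝ) := (Real.rpow_one 2).symm
          _ ≤ 2 ^ α := Real.rpow_le_rpow_of_exponent_le (by norm_num) hα
      refine ⟨?_, ?_⟩
      · rw [e]
        exact mul_le_mul_of_nonneg_right h2 (Real.rpow_nonneg hm0 α)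
      · rw [e]

end Pool.Agent.Results.MP_e8676d_al.DegreePairs
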